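import Pool.Agent.Lib.MP_1a91b9_nuX.PX.Sha
import Pool.Agent.Lib.MP_1a91b9_nuT.PL.Val
import Pool.Agent.Lib.MP_1a91b9_nuT.S4.TwoAdic
import Pool.Agent.Lib.MP_1a91b9_nuT.D3.Main
import Pool.Agent.Lib.MP_1a91b9_nuT3.R3.Defs
import Pool.Agent.Lib.MP_1a91b9_nuT3.S9.Un

/-!
# The `ℓ`-part of the formula, when all the terms are trivial at `ℓ`
-/

set_option autoImplicit false

namespace Pool.Agent.Lib.MP_1a91b9_nuX.PX

variable [Pool.Agent.Lib.MP_1a91b9_nuT.CD]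

open NumberField IsDedekindDomain WeierstrassCurve Pool.Agent.Lib.MP_1a91b9_nuT
  Pool.Agent.Lib.MP_1a91b9_nuT.S9
open Pool.Agent.Lib.MP_1a91b9_nuT.PL
open Pool.Agent.Lib.MP_1a91b9_nuT3.S9 (ShaP FormulaQ)
open scoped Classical

universe u

/-- The formula. -/
theorem formula {N : Type u} [Field N] [NumberField N] {ℓ : ℕ} [hℓ : Fact ℓ.Prime]
    {W : WeierstrassCurve N}
    (hval : ∃ g : ℂ → ℂ, Differentiable ℂ g ∧ (∀ s : ℂ, 2 < s.re → g s = W.LSeries s) ∧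
      ∀ A : ValuationSubring ℂ, Ab ℓ A → A.valuation (g 1) = A.valuation Om ^ Module.finrank ℚ N)
    (hrat : ∃ (g : ℂ → ℂ) (q : ℚ), Differentiable ℂ g ∧
      (∀ s : ℂ, 2 < s.re → g s = W.LSeries s) ∧
      g 1 * (Real.sqrt |(discr N : ℝ)| : ℝ) =
        (q : ℂ) * (∏ v : InfinitePlace N, Per.perAt W v : ℝ))
    (hper : period W ≠ 0 ∧ ∀ A : ValuationSubring ℂ, Ab ℓ A →
      A.valuation ((period W : ℝ) : ℂ) = A.valuation Om ^ Module.finrank ℚ N)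
    (htam : ∀ v, (tam W v).Coprime ℓ) (hdisc : IsCoprime (discr N) (ℓ : ℤ))
    (hc : (Nat.card W.toAffine.Point).Coprime ℓ) (hS : Subsingleton (ShaP ℓ W))
    {g : ℂ → ℂ} (hg : Differentiable ℂ g) (hgW : ∀ s : ℂ, 2 < s.re → g s = W.LSeries s) :
    FormulaQ ℓ W g := by
  have hcard := card_sha_one hS
  have h2ℓ : 2 ≤ ℓ := hℓ.out.two_le
  obtain ⟨g₁, hg₁, hgs₁, hv⟩ := hval
  obtain ⟨g₂, q, hg₂, hgs₂, hq⟩ := hrat
  have e1 : g = g₁ := S4.entire_eq hg hg₁ fun s hs => by rw [hgW s hs, hgs₁ s hs]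
  have e2 : g = g₂ := S4.entire_eq hg hg₂ fun s hs => by rw [hgW s hs, hgs₂ s hs]
  rw [← e1] at hv
  rw [← e2] at hq
  obtain ⟨hP0, hPv⟩ := hper
  obtain ⟨φ, hφ⟩ := MP_1a91b9_nuT3.S9.rat_normFactor W
  obtain ⟨T, hT⟩ : ∃ T : ℕ, T = ∏ᶠ v : HeightOneSpectrum (𝓞 N), tam W v := ⟨_, rfl⟩
  have hTc : T.Coprime ℓ := by
    rw [hT]
    exact finprod_induction (p := fun n : ℕ => n.Coprime ℓ) (Nat.coprime_one_left ℓ)
      (fun _ _ => Nat.Coprime.mul_left) htam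
  obtain ⟨P, hP⟩ : ∃ P : ℝ, P = ∏ v : InfinitePlace N, Per.perAt W v := ⟨_, rfl⟩
  obtain ⟨C, hC⟩ : ∃ C : ℕ, C = Nat.card W.toAffine.Point := ⟨_, rfl⟩
  have hper : period W = (φ : ℝ) * P := by rw [hφ, hP]; rfl
  rw [← hC] at hc
  have hT0 : (T : ℝ) ≠ 0 := by
    rintro h0
    have h1 : T = 0 := by exact_mod_cast h0
    rw [h1, Nat.coprime_zero_left] at hTc
    omega
  have hC0 : (C : ℝ) ≠ 0 := by
    rintro h0
    have h1 : C = 0 := by exact_mod_cast h0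
    rw [h1, Nat.coprime_zero_left] at hc
    omega
  have hφ0 : (φ : ℝ) ≠ 0 := by
    intro h0
    rw [hper, h0, zero_mul] at hP0
    exact hP0 rfl
  have hPP : (P : ℝ) ≠ 0 := by
    intro h0
    rw [hper, h0, mul_zero] at hP0
    exact hP0 rfl
  rw [← hP] at hq
  -- the rational number
  have hform : g 1 * (√|(discr N : ℝ)| : ℝ) / (period W : ℝ) =
      (((q / φ * (C : ℚ) ^ 2 / (T : ℚ) : ℚ) : ℝ) *
        ((Nat.card (ShaP ℓ W) : ℝ) * (T : ℝ) / (C : ℝ) ^ 2) : ℝ) := by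
    rw [hq, hper, hcard]
    push_cast
    have a1 : (T : ℂ) ≠ 0 := by exact_mod_cast hT0
    have a2 : (C : ℂ) ≠ 0 := by exact_mod_cast hC0
    have a3 : (φ : ℂ) ≠ 0 := by exact_mod_cast hφ0
    have a4 : (P : ℂ) ≠ 0 := by exact_mod_cast hPP
    field_simp
  have hOm : ∀ A : ValuationSubring ℂ, A.valuation Om ≠ 0 := fun A => (map_ne_zero _).2 Om_ne
  have hval : ∀ A : ValuationSubring ℂ, Ab ℓ A →
      A.valuation (((q / φ * (C : ℚ) ^ 2 / (T : ℚ) : ℚ) : ℝ) : ℂ) = 1 := by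
    intro A hA
    have h1 := congrArg A.valuation hform
    rw [map_div₀, map_mul, hv A hA, hA.sqrt_int hdisc, mul_one, hPv A hA,
      div_self (pow_ne_zero _ (hOm A)), Complex.ofReal_mul, map_mul, hcard] at h1
    have h2 : A.valuation ((((1 : ℕ) : ℝ) * (T : ℝ) / (C : ℝ) ^ 2 : ℝ) : ℂ) = 1 := by
      push_cast
      rw [one_mul, map_div₀, map_pow, hA.nat hTc, hA.nat hc, one_pow, div_one]
    rw [h2, mul_one] at h1
    exact h1.symm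
  obtain ⟨A, hA⟩ : ∃ A : ValuationSubring ℂ, Ab ℓ A := Ell.d3_exists hℓ.out
  have hx0 : ((q / φ * (C : ℚ) ^ 2 / (T : ℚ) : ℚ) : ℝ) ≠ 0 := by
    intro h0
    have h1 := hval A hA
    rw [h0, Complex.ofReal_zero, map_zero] at h1
    exact zero_ne_one h1
  obtain ⟨-, hx1, hx2⟩ := MP_1a91b9_nuT3.S9.unitAt_of_val hℓ.out hx0 hval
  have hq0 : (q / φ * (C : ℚ) ^ 2 / (T : ℚ) : ℚ) ≠ 0 := by
    intro h0
    exact hx0 (by rw [h0, Rat.cast_zero])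
  refine ⟨_, MP_1a91b9_nuT3.S9.num_coprime hq0 hx2, MP_1a91b9_nuT3.S9.den_coprime hx1, ?_⟩
  rw [← hT, ← hC]
  exact hform

end Pool.Agent.Lib.MP_1a91b9_nuX.PX
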