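import Pool.Agent.Lib.MP_1a91b9_nuX.RG.Dl
import Pool.Agent.Lib.MP_1a91b9_nuX.DG.Hps
import Pool.Agent.Lib.MP_1a91b9_nuX.DG.TF

/-!
# The Galois action on the torsion points and the Hecke character, over every Galois extension
-/

set_option autoImplicit false

namespace Pool.Agent.Lib.MP_1a91b9_nuX.PX

variable [Pool.Agent.Lib.MP_1a91b9_nuT.CD]

open NumberField Pool.Agent.Lib.MP_1a91b9_nuT Pool.Agent.Lib.MP_1a91b9_nuX.DB
open Pool.Agent.Lib.MP_1a91b9_nuX.RG (GalPs)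

private theorem restrict_emb {L₁ L : Type} [Field L₁] [Algebra K L₁] [Field L] [Algebra K L]
    [Normal K L₁] (i : L₁ →ₐ[K] L) (σ : Gal(L/K)) :
    ∃ σ₁ : Gal(L₁/K), ∀ x, i (σ₁ x) = σ (i x) := by
  let _ : Algebra L₁ L := i.toRingHom.toAlgebra
  have _ : IsScalarTower K L₁ L := IsScalarTower.of_algebraMap_eq (fun x => (i.commutes x).symm)
  exact ⟨σ.restrictNormal L₁, fun x => σ.restrictNormal_commutes L₁ x⟩

theorem galPs [HC] {M : ℕ} (hM : 0 < M) : GalPs M := by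
  intro L _ _ _ _ _ T hT σ
  have hν : (M : 𝓞 K) ≠ 0 := by exact_mod_cast hM.ne'
  obtain ⟨L₁, _, _, _, _, R, hgal, hR, hgen, hone⟩ := DG.exists_tf hν
  obtain ⟨i⟩ := DG.emb_tf hν dvd_rfl ((hR _).2 dvd_rfl) hgen hT
  have hn : Normal K L₁ := IsGalois.to_normal
  obtain ⟨σ₁, hσ₁⟩ := restrict_emb i σ
  obtain ⟨c, hc1, hc2, hc3⟩ := DG.gal_ps hν hR hone σ₁
  refine ⟨c, hc1, ?_, hc3⟩
  have hfd : FiniteDimensional K L := Module.Finite.of_restrictScalars_finite ℚ K L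
  let g : L →ₐ[K] ℂ := IsAlgClosed.lift
  obtain ⟨c₀, hc₀⟩ := ord_cases g hν ((Ord.map i).2 hR) ((hT _).2 dvd_rfl)
  have h1 : ga σ (pm i R) = pm i (ga σ₁ R) := by
    have e : ((σ : L →ₐ[K] L).restrictScalars K).comp i =
        i.comp ((σ₁ : L₁ →ₐ[K] L₁).restrictScalars K) := by
      ext x
      exact (hσ₁ x).symm
    unfold ga
    rw [WeierstrassCurve.Affine.Point.map_map, WeierstrassCurve.Affine.Point.map_map, e]
  rw [hc₀, ga_sm, h1, hc2, pm_sm]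
  have h2 : sm L (c₀ * c) (pm i R) = sm L (c * c₀) (pm i R) := by rw [mul_comm]
  rw [map_mul, map_mul] at h2
  exact h2

end Pool.Agent.Lib.MP_1a91b9_nuX.PX
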