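import Pool.Agent.Lib.MP_1a91b9_nuX.PL.NmC
import Pool.Agent.Lib.MP_1a91b9_nuX.TM.Main

/-!
# The Tamagawa numbers and the periods of the curves with the invariant of `E`

`Tw a b`: the integral curve `y² = x³ + a x + b` is isomorphic to `E` over `K` up to scaling by an
element of `K`, and the prime divisors of its discriminant are bad.
-/

set_option autoImplicit false

namespace Pool.Agent.Lib.MP_1a91b9_nuX.PX

variable [Pool.Agent.Lib.MP_1a91b9_nuT.CD]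

open NumberField IsDedekindDomain WeierstrassCurve Pool.Agent.Lib.MP_1a91b9_nt
  Pool.Agent.Lib.MP_1a91b9_nuT Pool.Agent.Lib.MP_1a91b9_nuT.S9
open Pool.Agent.Lib.MP_1a91b9_nuT.PL (Ab)
open Pool.Agent.Lib.MP_1a91b9_nuT.Per (cv perAt)
open scoped Classical

universe u

/-- the integral curves isomorphic to `E` over `K` -/
structure Tw (a b : ℤ) : Prop where
  ex : ∃ x : K, x ≠ 0 ∧ (a : ℂ) = (CD.A : ℂ) * embK x ^ 4 ∧ (b : ℂ) = (CD.B : ℂ) * embK x ^ 6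
  bad : ∀ ℓ : ℕ, ℓ.Prime → (ℓ : ℤ) ∣ 6 * (4 * a ^ 3 + 27 * b ^ 2) → (ℓ : ℤ) ∣ CD.bad

theorem bad_six {ℓ : ℤ} (h : ℓ ∣ 6) : ℓ ∣ CD.bad :=
  (((h.mul_right _).mul_right _).mul_right _).trans CD.bad_dvd

theorem bad_disc {ℓ : ℤ} (h : ℓ ∣ 4 * CD.A ^ 3 + 27 * CD.B ^ 2) : ℓ ∣ CD.bad :=
  (((h.mul_left 6).mul_right _).mul_right _).trans CD.bad_dvd

theorem bad_dK {ℓ : ℤ} (h : ℓ ∣ CD.tr ^ 2 - 4 * CD.nm) : ℓ ∣ CD.bad :=
  (h.mul_left _).trans CD.bad_dvd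

theorem Tw.base : Tw CD.A CD.B := by
  refine ⟨⟨1, one_ne_zero, by rw [map_one]; ring, by rw [map_one]; ring⟩, fun ℓ hℓ h => ?_⟩
  rcases (Nat.prime_iff_prime_int.1 hℓ).dvd_or_dvd h with h | h
  · exact bad_six h
  · exact bad_disc h

/-- the second class of curves over the fields which do not contain `K` -/
theorem Tw.second {a b : ℤ}
    (h : (CD.B ≠ 0 ∧ a = CD.A * (CD.tr ^ 2 - 4 * CD.nm) ^ 2 ∧
      b = CD.B * (CD.tr ^ 2 - 4 * CD.nm) ^ 3) ∨ (CD.B = 0 ∧ a = -4 * CD.A ∧ b = 0)) : Tw a b := by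
  refine ⟨RG.exists_lam h, fun ℓ hℓ hd => ?_⟩
  have hp := Nat.prime_iff_prime_int.1 hℓ
  rcases hp.dvd_or_dvd hd with h6 | hd
  · exact bad_six h6
  rcases h with ⟨-, rfl, rfl⟩ | ⟨hB, rfl, rfl⟩
  · have e : 4 * (CD.A * (CD.tr ^ 2 - 4 * CD.nm) ^ 2) ^ 3 +
        27 * (CD.B * (CD.tr ^ 2 - 4 * CD.nm) ^ 3) ^ 2 =
        (CD.tr ^ 2 - 4 * CD.nm) ^ 6 * (4 * CD.A ^ 3 + 27 * CD.B ^ 2) := by ring
    rw [e] at hd
    rcases hp.dvd_or_dvd hd with h1 | h1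
    · exact bad_dK (hp.dvd_of_dvd_pow h1)
    · exact bad_disc h1
  · have e : 4 * (-4 * CD.A) ^ 3 + 27 * (0 : ℤ) ^ 2 =
        -(2 ^ 6 * (4 * CD.A ^ 3 + 27 * CD.B ^ 2)) := by
      rw [hB]
      ring
    rw [e, dvd_neg] at hd
    rcases hp.dvd_or_dvd hd with h1 | h1
    · exact bad_six ((hp.dvd_of_dvd_pow h1).trans ⟨3, by norm_num⟩)
    · exact bad_disc h1

theorem Tw.ne {a b : ℤ} (h : Tw a b) : 4 * a ^ 3 + 27 * b ^ 2 ≠ 0 := by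
  obtain ⟨x, hx0, ha, hb⟩ := h.ex
  intro h0
  have h1 : ((4 * a ^ 3 + 27 * b ^ 2 : ℤ) : ℂ) =
      embK x ^ 12 * ((4 * CD.A ^ 3 + 27 * CD.B ^ 2 : ℤ) : ℂ) := by
    push_cast
    rw [ha, hb]
    ring
  rw [h0, Int.cast_zero, eq_comm, mul_eq_zero] at h1
  rcases h1 with h1 | h1
  · exact (map_ne_zero_iff _ embK.injective).2 hx0 (pow_eq_zero_iff (by norm_num) |>.1 h1)
  · exact CD.disc (Int.cast_eq_zero.1 h1)

theorem Tw.jint {a b : ℤ} (h : Tw a b) : 4 * a ^ 3 + 27 * b ^ 2 ∣ 6912 * a ^ 3 := by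
  obtain ⟨x, hx0, ha, hb⟩ := h.ex
  obtain ⟨J, hJ⟩ := CD.jint
  refine ⟨J, ?_⟩
  have h1 : ((6912 * a ^ 3 : ℤ) : ℂ) = (((4 * a ^ 3 + 27 * b ^ 2) * J : ℤ) : ℂ) := by
    have h2 := congrArg (fun n : ℤ => (n : ℂ)) hJ
    simp only [Int.cast_mul, Int.cast_add, Int.cast_pow, Int.cast_ofNat] at h2
    push_cast
    rw [ha, hb]
    linear_combination embK x ^ 12 * h2
  exact_mod_cast h1

/-- The Tamagawa numbers. -/
theorem tam_all {ℓ : ℕ} (hℓ : ℓ.Prime) (hg : ¬ (ℓ : ℤ) ∣ CD.bad) {N : Type u} [Field N]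
    [NumberField N] {a b : ℤ} (h : Tw a b) (W : WeierstrassCurve N)
    (C : VariableChange N) (hC : C • W = cv (a : N) (b : N)) (v : HeightOneSpectrum (𝓞 N)) :
    (tam W v).Coprime ℓ :=
  TM.tam_cop h.ne h.jint hC hℓ (fun h1 => hg (h.bad ℓ hℓ h1)) v

/-- The period. -/
theorem period_all {ℓ : ℕ} (hℓ : ℓ.Prime) (hg : ¬ (ℓ : ℤ) ∣ CD.bad) {N : Type u} [Field N]
    [NumberField N] {a b : ℤ} (h : Tw a b) (W : WeierstrassCurve N)
    (C : VariableChange N) (hC : C • W = cv (a : N) (b : N)) :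
    period W ≠ 0 ∧ ∀ A : ValuationSubring ℂ, Ab ℓ A →
      A.valuation ((period W : ℝ) : ℂ) = A.valuation Om ^ Module.finrank ℚ N := by
  obtain ⟨x, hx0, ha, hb⟩ := h.ex
  refine PL.period_cv hx0 ha hb hℓ (fun h1 => hg (h.bad ℓ hℓ ?_)) hg hC
  obtain ⟨c, hc⟩ := h1
  exact ⟨3 * c, by linear_combination 3 * hc⟩

/-- The product of the archimedean periods. -/
theorem ratio_all {N : Type u} [Field N] [NumberField N] {a b : ℤ} (h : Tw a b)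
    (W : WeierstrassCurve N) (C : VariableChange N) (hC : C • W = cv (a : N) (b : N)) :
    ∃ q : ℚ, q ≠ 0 ∧ ∏ v : InfinitePlace N, perAt (E N) v =
      (q : ℝ) * ∏ v : InfinitePlace N, perAt W v := by
  obtain ⟨x, hx0, ha, hb⟩ := h.ex
  exact RG.prod_ratio hx0 ha hb hC

end Pool.Agent.Lib.MP_1a91b9_nuX.PX
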