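import Pool.Agent.Lib.MP_1a91b9_nuX.LF.LfC
import Pool.Agent.Lib.MP_1a91b9_nuX.AN.Family
import Pool.Agent.Lib.MP_1a91b9_nuT.PL.Val
import Pool.Agent.Lib.MP_1a91b9_nuT.P.Ratio

/-!
# The values of the L-series at the places above `ℓ`
-/

set_option autoImplicit false

namespace Pool.Agent.Lib.MP_1a91b9_nuX.PX

variable [Pool.Agent.Lib.MP_1a91b9_nuT.CD]

open NumberField IsDedekindDomain WeierstrassCurve Pool.Agent.Lib.MP_1a91b9_nt
  Pool.Agent.Lib.MP_1a91b9_nuT Pool.Agent.Lib.MP_1a91b9_nuX.LF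
open Pool.Agent.Lib.MP_1a91b9_nuT.PL
open Pool.Agent.Lib.MP_1a91b9_nuT.S4 (Lf differentiable_conj_conj)
open Pool.Agent.Lib.MP_1a91b9_nuX.AN (UnitProp psC psbC)

universe u

variable [HC]

/-- The value of `L(W/F, 1)`, `F` over `K`, if the L-series of `W` is that of `E`. -/
theorem lvalK0 {ℓ : ℕ} {F : Type u} [Field F] [NumberField F] [Algebra K F]
    (hU : UnitProp ℓ Om F) (W : WeierstrassCurve F)
    (hW : ∀ s : ℂ, 2 < s.re → W.LSeries s = Lf (psC F) s * Lf (psbC F) s) :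
    ∃ g : ℂ → ℂ, Differentiable ℂ g ∧ (∀ s : ℂ, 2 < s.re → g s = W.LSeries s) ∧
      ∀ A : ValuationSubring ℂ, Ab ℓ A → A.valuation (g 1) = A.valuation Om ^ Module.finrank ℚ F := by
  obtain ⟨L, hL, hL1, hLW⟩ := hU
  refine ⟨fun s => (starRingEnd ℂ) (L ((starRingEnd ℂ) s)) * L s,
    (differentiable_conj_conj hL).mul hL, fun s hs => ?_, fun A hA => ?_⟩
  · change (starRingEnd ℂ) (L ((starRingEnd ℂ) s)) * L s = _
    rw [hW s hs, hL1 s hs, hL1 _ (by rw [Complex.conj_re]; exact hs)]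
    congr 1
    exact (LF.Lf_conj s).symm
  · change A.valuation ((starRingEnd ℂ) (L ((starRingEnd ℂ) 1)) * L 1) = _
    have e : Module.finrank ℚ F = Module.finrank K F + Module.finrank K F := by
      rw [← Module.finrank_mul_finrank ℚ K F, finrank_K]
      ring
    rw [map_one, map_mul, Per.val_conj_div (hLW _ hA.comap), Per.val_of_div (hLW _ hA), ← pow_add, e]

/-- The value of `L(W/N, 1)`, `F = N K`. -/
theorem lvalN0 {ℓ : ℕ} {N F : Type u} [Field N] [NumberField N] [Field F] [NumberField F]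
    [Algebra N F] [Algebra K F] (hfr : Module.finrank N F = 2) (hU : UnitProp ℓ Om F)
    (W : WeierstrassCurve N) (hW : ∀ s : ℂ, 2 < s.re → W.LSeries s = Lf (psbC F) s) :
    ∃ g : ℂ → ℂ, Differentiable ℂ g ∧ (∀ s : ℂ, 2 < s.re → g s = W.LSeries s) ∧
      ∀ A : ValuationSubring ℂ, Ab ℓ A → A.valuation (g 1) = A.valuation Om ^ Module.finrank ℚ N := by
  obtain ⟨L, hL, hL1, hLW⟩ := hU
  refine ⟨L, hL, fun s hs => ?_, fun A hA => ?_⟩
  · rw [hL1 s hs, hW s hs]
  · have e : Module.finrank K F = Module.finrank ℚ N := by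
      have h1 := Module.finrank_mul_finrank ℚ N F
      have h2 := Module.finrank_mul_finrank ℚ K F
      rw [hfr] at h1
      rw [finrank_K] at h2
      omega
    rw [Per.val_of_div (hLW _ hA), e]

end Pool.Agent.Lib.MP_1a91b9_nuX.PX
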