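import Pool.Agent.Lib.MP_1a91b9_nuX.PX.Form
import Pool.Agent.Lib.MP_1a91b9_nuX.PX.Val
import Pool.Agent.Lib.MP_1a91b9_nuX.PX.Iface
import Pool.Agent.Lib.MP_1a91b9_nuX.PX.Gal
import Pool.Agent.Lib.MP_1a91b9_nuX.TG.Tower
import Pool.Agent.Lib.MP_1a91b9_nuX.RG.Fin
import Pool.Agent.Lib.MP_1a91b9_nuX.LF.Ser
import Pool.Agent.Lib.MP_1a91b9_nuX.PX.ShaD
import Pool.Agent.Lib.MP_1a91b9_nuT.PL.Main
import Pool.Agent.Lib.MP_1a91b9_nuT.PL.Disc

/-!
# The `ℓ`-part of the conjecture of Birch and Swinnerton-Dyer: the fields `N ⊆ F`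

`F` contains `K`, and `N = F` or `F = N K`.
-/

set_option autoImplicit false

namespace Pool.Agent.Lib.MP_1a91b9_nuX.PX

variable [Pool.Agent.Lib.MP_1a91b9_nuT.CD]

open NumberField IsDedekindDomain WeierstrassCurve Module Pool.Agent.Lib.MP_1a91b9_nt
  Pool.Agent.Lib.MP_1a91b9_nuT Pool.Agent.Lib.MP_1a91b9_nuX.LF Pool.Agent.Lib.MP_1a91b9_nuT.S9
open Pool.Agent.Lib.MP_1a91b9_nuT.PL (Ab Concl exists_coord coprime_discr)
open Pool.Agent.Lib.MP_1a91b9_nuT3.S9 (ShaP FormulaQ)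
open Pool.Agent.Lib.MP_1a91b9_nuX.AN (UnitProp)
open Pool.Agent.Lib.MP_1a91b9_nuX.RG (GalPs)
open Pool.Agent.Lib.MP_1a91b9_nuX.TG (GoodX)
open Pool.Agent.Lib.MP_1a91b9_nuT.TW (om_of_sqrt)
open scoped Classical

universe u

/-- the Galois action on the torsion points of annihilator `(M)` is by the values of the Hecke
character -/
theorem galAll [HC] : ∀ M : ℕ, 0 < M → (HC.f : 𝓞 K) ∣ (M : 𝓞 K) →
    ((CD.bad : ℤ) : 𝓞 K) ∣ (M : 𝓞 K) → GalPs M :=
  fun _ hM _ _ => galPs hM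

private theorem bc_self {F : Type*} [Field F] (W : WeierstrassCurve F) :
    W.baseChange F = W := by
  show W.map (algebraMap F F) = W
  rw [Algebra.algebraMap_self]
  exact W.map_id

theorem dvd_bad_six : (6 : ℤ) ∣ CD.bad := bad_six dvd_rfl

theorem ell_ne_two {ℓ : ℕ} (hg : ¬ (ℓ : ℤ) ∣ CD.bad) : ℓ ≠ 2 := by
  rintro rfl
  exact hg (bad_six (by norm_num))

/-- the two classes of curves over `N` -/
theorem cl_tw {N : Type u} [Field N] [NumberField N] {W : WeierstrassCurve N} (h : IsCl W) :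
    ∃ (a b : ℤ) (C : VariableChange N), Tw a b ∧
      C • W = Pool.Agent.Lib.MP_1a91b9_nuT.Per.cv (a : N) (b : N) := by
  rcases h with ⟨C, hC⟩ | ⟨C, hC⟩
  · exact ⟨CD.A, CD.B, C, Tw.base, hC⟩
  · refine ⟨tA, tB, C, Tw.second ?_, hC⟩
    by_cases hB : CD.B = 0
    · right
      exact ⟨hB, by rw [tA, if_pos hB], by rw [tB, hB, zero_mul]⟩
    · left
      exact ⟨hB, by rw [tA, if_neg hB]; rfl, rfl⟩

section
variable [HC] {ℓ : ℕ} [hℓ : Fact ℓ.Prime]

/-- The conclusion over `F`. -/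
theorem concl_F {F : Type u} [Field F] [NumberField F]
    [Algebra K F] (h : GoodX ℓ F) (W : WeierstrassCurve F) (D : VariableChange F)
    (hD : D • W = E F) : Concl ℓ W := by
  have hC : D • W.baseChange F = E F := by rw [bc_self]; exact hD
  obtain ⟨hfW, hdvd⟩ := pts_down (N := F) (N' := F) h.fin W D hC
  have hcW : (Nat.card W.toAffine.Point).Coprime ℓ := Nat.Coprime.coprime_dvd_left hdvd h.cop
  have hS : Subsingleton (ShaP ℓ W) :=
    sha_down (N := F) (N' := F) (ell_ne_two h.good) h.sha 1 1 (by rw [one_pow, map_one])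
      (fun z => ⟨z, 0, by simp⟩) W D hC
  have hdisc := coprime_discr hℓ.out F F h.unr
  have htam : ∀ v, (tam W v).Coprime ℓ := fun v =>
    tam_all hℓ.out h.good Tw.base W D hD v
  refine ⟨fun g hg hgW => ?_, card_sha_one hS, htam, hfW, hcW⟩
  have hser : ∀ s : ℂ, 2 < s.re → W.LSeries s =
      Pool.Agent.Lib.MP_1a91b9_nuT.S4.Lf (AN.psC F) s *
        Pool.Agent.Lib.MP_1a91b9_nuT.S4.Lf (AN.psbC F) s :=
    fun s hs => LSeries_K h.nice W D hD s (by linarith)
  obtain ⟨q, -, hq⟩ := ratio_all Tw.base W D hD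
  exact formula (lvalK0 h.unit W hser) (RG.rat_K0 galAll W hq hser)
    (period_all hℓ.out h.good Tw.base W D hD) htam hdisc hcW hS hg hgW

/-- The conclusion over `N`, `F = N K`. -/
theorem concl_N {N F : Type u} [Field N] [NumberField N]
    [Field F] [NumberField F] [Algebra N F] [Algebra K F] (hL : finrank N F = 2)
    (hn : ∀ x : N, algebraMap N F x ≠ algebraMap K F om) (h : GoodX ℓ F) (W : WeierstrassCurve N)
    (hW : IsCl W) : Concl ℓ W := by
  have hz : (2 * algebraMap K F om - (CD.tr : F)) ^ 2 = ((CD.tr ^ 2 - 4 * CD.nm : ℤ) : F) :=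
    om_of_sqrt _ rfl
  have hz' : ∀ a : N, algebraMap N F a ≠ 2 * algebraMap K F om - (CD.tr : F) := by
    intro a ha
    apply hn ((a + CD.tr) / 2)
    rw [map_div₀, map_add, map_intCast, map_ofNat, ha]
    ring
  have hgen := exists_coord hL _ hz'
  have hdisc := coprime_discr hℓ.out N F h.unr
  obtain ⟨C, hC⟩ := hW.up F
  obtain ⟨hfW, hdvd⟩ := pts_down (N := N) (N' := F) h.fin W C hC
  have hcW : (Nat.card W.toAffine.Point).Coprime ℓ := Nat.Coprime.coprime_dvd_left hdvd h.cop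
  have hS : Subsingleton (ShaP ℓ W) :=
    sha_down (N := N) (N' := F) (ell_ne_two h.good) h.sha
      (2 * algebraMap K F om - (CD.tr : F)) ((CD.tr ^ 2 - 4 * CD.nm : ℤ) : N)
      (by rw [hz, map_intCast]) hgen W C hC
  obtain ⟨a, b, D, hT, hD⟩ := cl_tw hW
  have htam : ∀ v, (tam W v).Coprime ℓ := fun v => tam_all hℓ.out h.good hT W D hD v
  refine ⟨fun g hg hgW => ?_, card_sha_one hS, htam, hfW, hcW⟩
  have hser : ∀ s : ℂ, 2 < s.re → W.LSeries s =
      Pool.Agent.Lib.MP_1a91b9_nuT.S4.Lf (AN.psbC F) s :=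
    fun s hs => LSeries_N hL hn h.nice W hW s (by linarith)
  obtain ⟨q, -, hq⟩ := ratio_all hT W D hD
  exact formula (lvalN0 hL h.unit W hser) (RG.rat_N0 galAll hL hn W hq hser)
    (period_all hℓ.out h.good hT W D hD) htam hdisc hcW hS hg hgW

end

/-- What is needed about the field `N`. -/
def DatP [HC] (ℓ : ℕ) [Fact ℓ.Prime] (N : Type u) [Field N] [NumberField N] : Prop :=
  (∃ _ : Algebra K N, GoodX ℓ N) ∨
  ∃ (F : Type u) (_ : Field F) (_ : NumberField F) (_ : Algebra N F) (_ : Algebra K F),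
    finrank N F = 2 ∧ (∀ x : N, algebraMap N F x ≠ algebraMap K F om) ∧ GoodX ℓ F

/-- The `ℓ`-part for the curves over `N` which are isomorphic over `N` to `E` or to
`y² = x³ + tA x + tB`. -/
theorem prime_of [HC] {ℓ : ℕ} [hℓ : Fact ℓ.Prime]
    {N : Type u} [Field N] [NumberField N] (hdat : DatP ℓ N) (W : WeierstrassCurve N)
    (hW : (∃ C : VariableChange N, C • W = crv (cA N) (cB N)) ∨
      ∃ C : VariableChange N, C • W = crv ((tA : ℤ) : N) ((tB : ℤ) : N)) : Concl ℓ W := by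
  rcases hdat with ⟨_, h⟩ | ⟨F, _, _, _, _, hL, hn, h⟩
  · rcases hW with ⟨D, hD⟩ | ⟨D, hD⟩
    · exact concl_F h W D hD
    · obtain ⟨C', hC'⟩ := crv_tw N
      exact concl_F h W (C' * D) (by rw [mul_smul, hD]; exact hC')
  · exact concl_N hL hn h W hW

end Pool.Agent.Lib.MP_1a91b9_nuX.PX
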