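import Pool.Agent.Lib.MP_1a91b9_nuT.PL.Sha

/-!
# The Tate-Shafarevich group over a field and over a quadratic extension: the part prime to `2`
-/

set_option autoImplicit false

namespace Pool.Agent.Lib.MP_1a91b9_nuX.PX

variable [Pool.Agent.Lib.MP_1a91b9_nuT.CD]

open NumberField IsDedekindDomain WeierstrassCurve Pool.Agent.Lib.MP_1a91b9_nuT
  Pool.Agent.Lib.MP_1a91b9_nuT.S9
open Pool.Agent.Lib.MP_1a91b9_nuT.CT Pool.Agent.Lib.MP_1a91b9_nuT.PL
open Pool.Agent.Lib.MP_1a91b9_nuT.S5 (below)
open Pool.Agent.Lib.MP_1a91b9_nuT3.S9 (ShaP)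
open scoped Classical

universe u

theorem descend2 {k k' : Type*} [Field k] [CharZero k] [Field k'] [CharZero k'] [Algebra k k']
    (x : k') (d : k) (hx : x ^ 2 = algebraMap k k' d)
    (hgen : ∀ z : k', ∃ a b : k, z = algebraMap k k' a + algebraMap k k' b * x)
    (W : WeierstrassCurve k) (j : AlgebraicClosure k ≃ₐ[k] AlgebraicClosure k')
    (c : Gal k → Pts W (AlgebraicClosure k)) (hc : c ∈ coc W)
    (P : Pts W (AlgebraicClosure k)) (hP : ∀ τ : Gal k,
      (∀ z : k', τ (j.symm (algebraMap k' _ z)) = j.symm (algebraMap k' _ z)) →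
      c τ = Affine.Point.map (τ : AlgebraicClosure k →ₐ[k] _) P - P) : 2 • c ∈ cob W := by
  -- the point `y`
  set y : AlgebraicClosure k := j.symm (algebraMap k' _ x) with hy
  have hy2 : y ^ 2 = algebraMap k _ d := by
    rw [hy, ← map_pow, ← map_pow, hx, ← IsScalarTower.algebraMap_apply k k', j.symm.commutes]
  have hfix : ∀ τ : Gal k, τ y = y →
      ∀ z : k', τ (j.symm (algebraMap k' _ z)) = j.symm (algebraMap k' _ z) := by
    intro τ h z
    obtain ⟨a, b, rfl⟩ := hgen z
    have e : j.symm (algebraMap k' (AlgebraicClosure k')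
        (algebraMap k k' a + algebraMap k k' b * x)) =
        algebraMap k _ a + algebraMap k _ b * y := by
      rw [_root_.map_add, _root_.map_mul, ← IsScalarTower.algebraMap_apply k k',
        ← IsScalarTower.algebraMap_apply k k', _root_.map_add, _root_.map_mul, j.symm.commutes,
        j.symm.commutes]
    rw [e, _root_.map_add, _root_.map_mul, τ.commutes, τ.commutes, h]
  have hsgn : ∀ τ : Gal k, τ y = y ∨ τ y = -y := by
    intro τ
    have h1 : (τ y) ^ 2 = y ^ 2 := by rw [← map_pow, hy2, τ.commutes]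
    exact sq_eq_sq_iff_eq_or_eq_neg.mp h1
  -- the modified cocycle
  set c' : Gal k → Pts W (AlgebraicClosure k) := fun τ =>
    c τ - (Affine.Point.map (τ : AlgebraicClosure k →ₐ[k] _) P - P) with hc'
  have hcoc : c' ∈ coc W := by
    have h1 : (fun τ : Gal k => Affine.Point.map (τ : AlgebraicClosure k →ₐ[k] _) P - P) ∈
        coc W := cob_le_coc W ⟨P, fun σ => rfl⟩
    exact sub_mem hc h1
  have hH : ∀ τ : Gal k, τ y = y → c' τ = 0 := by
    intro τ h
    have h1 := hP τ (hfix τ h)
    rw [hc']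
    simp only [h1, sub_self]
  suffices hs : 2 • c' ∈ cob W by
    have h1 : (fun τ : Gal k => Affine.Point.map (τ : AlgebraicClosure k →ₐ[k] _) P - P) ∈
        cob W := ⟨P, fun σ => rfl⟩
    have h2 : c = c' + fun τ : Gal k =>
        Affine.Point.map (τ : AlgebraicClosure k →ₐ[k] _) P - P := by
      funext τ
      rw [Pi.add_apply, hc']
      simp only [sub_add_cancel]
    rw [h2, smul_add]
    exact add_mem hs (AddSubgroup.nsmul_mem _ h1 2)
  by_cases hall : ∀ τ : Gal k, τ y = y
  · refine ⟨0, fun σ => ?_⟩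
    rw [Pi.smul_apply, hH σ (hall σ), _root_.map_zero, sub_zero, smul_zero]
  push Not at hall
  obtain ⟨σ₀, hσ₀⟩ := hall
  have hσ₀' : σ₀ y = -y := (hsgn σ₀).resolve_left hσ₀
  set R := c' σ₀ with hR
  have h1 : ∀ σ : Gal k, σ y = -y → c' σ = R := by
    intro σ hσ
    have h2 : (σ₀⁻¹ * σ) y = y := by
      rw [AlgEquiv.mul_apply, hσ]
      apply σ₀.injective
      rw [← AlgEquiv.mul_apply, mul_inv_cancel, AlgEquiv.one_apply, hσ₀']
    have h3 := hcoc.2 σ₀ (σ₀⁻¹ * σ)
    rw [mul_inv_cancel_left, hH _ h2, _root_.map_zero, add_zero] at h3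
    exact h3
  have h2 : ∀ τ : Gal k, τ y = y → Affine.Point.map (τ : AlgebraicClosure k →ₐ[k] _) R = R := by
    intro τ hτ
    have h3 : (τ * σ₀) y = -y := by rw [AlgEquiv.mul_apply, hσ₀', _root_.map_neg, hτ]
    have h4 := hcoc.2 τ σ₀
    rw [h1 _ h3, hH τ hτ, zero_add] at h4
    exact h4.symm
  have h3 : ∀ σ : Gal k, σ y = -y →
      Affine.Point.map (σ : AlgebraicClosure k →ₐ[k] _) R = -R := by
    intro σ hσ
    have h4 : (σ * σ) y = y := by rw [AlgEquiv.mul_apply, hσ, _root_.map_neg, hσ, neg_neg]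
    have h5 := hcoc.2 σ σ
    rw [hH _ h4, h1 σ hσ] at h5
    exact (neg_eq_of_add_eq_zero_right h5.symm).symm
  refine ⟨-R, fun σ => ?_⟩
  rw [Pi.smul_apply]
  rcases hsgn σ with h | h
  · rw [hH σ h, _root_.map_neg, h2 σ h, sub_self, smul_zero]
  · rw [h1 σ h, _root_.map_neg, h3 σ h, two_nsmul]
    abel

section
variable {N N' : Type u} [Field N] [NumberField N] [Field N'] [NumberField N'] [Algebra N N']

private theorem px_base {F : Type*} [Field F] (W : WeierstrassCurve F) :
    Affine.baseChange W F = W.toAffine := by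
  show W.map (algebraMap F F) = W
  rw [Algebra.algebraMap_self]
  exact W.map_id

theorem px_pts {W' : WeierstrassCurve N'} (hf : Finite W'.toAffine.Point) (W : WeierstrassCurve N)
    (C : VariableChange N') (hC : C • W.baseChange N' = W') :
    Finite (Pts W N') ∧ Nat.card (Pts W N') = Nat.card W'.toAffine.Point := by
  have h1 : Finite (Pts W' N') ∧ Nat.card (Pts W' N') =
      Nat.card W'.toAffine.Point := by
    have h2 : ∀ V : Affine N', V = W'.toAffine → Finite V.Point ∧
        Nat.card V.Point = Nat.card W'.toAffine.Point := by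
      rintro _ rfl
      exact ⟨hf, rfl⟩
    exact h2 _ (px_base W')
  have h3 : Finite (Pts W' N') := h1.1
  refine ⟨Finite.of_equiv _ (tr hC N').toEquiv, ?_⟩
  rw [← Nat.card_congr (tr hC N').toEquiv]
  exact h1.2

/-- the points of `W` over `N` -/
theorem pts_down {W' : WeierstrassCurve N'} (hf : Finite W'.toAffine.Point)
    (W : WeierstrassCurve N) (C : VariableChange N') (hC : C • W.baseChange N' = W') :
    Finite W.toAffine.Point ∧
      Nat.card W.toAffine.Point ∣ Nat.card W'.toAffine.Point := by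
  obtain ⟨h4, h5⟩ := px_pts hf W C hC
  have h6 : Function.Injective (Affine.Point.map (W' := W) (Algebra.ofId N N')) :=
    Affine.Point.map_injective _
  have h7 : Finite (Pts W N) := Finite.of_injective _ h6
  have h8 : Nat.card (Pts W N) ∣ Nat.card (Pts W N') := AddSubgroup.card_dvd_of_injective _ h6
  rw [h5] at h8
  have h10 : ∀ V : Affine N, V = Affine.baseChange W N →
      Finite V.Point ∧ Nat.card V.Point ∣ Nat.card W'.toAffine.Point := by
    rintro _ rfl
    exact ⟨h7, h8⟩
  exact h10 _ (px_base W).symm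

/-- The `ℓ`-primary part of the Tate-Shafarevich group of `W` over `N` is zero if that of `E`
over `N'` is. -/
theorem sha_down {ℓ : ℕ} [hℓ : Fact ℓ.Prime] (hℓ2 : ℓ ≠ 2) [Algebra K N']
    {W' : WeierstrassCurve N'} (hS : Subsingleton (ShaP ℓ W')) (x : N') (d : N) (hx : x ^ 2 = algebraMap N N' d)
    (hgen : ∀ z : N', ∃ a b : N, z = algebraMap N N' a + algebraMap N N' b * x)
    (W : WeierstrassCurve N) (C : VariableChange N') (hC : C • W.baseChange N' = W') :
    Subsingleton (ShaP ℓ W) := by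
  have hfin : FiniteDimensional N N' := Module.Finite.of_restrictScalars_finite ℚ N N'
  have halg : Algebra.IsAlgebraic N N' := Algebra.IsAlgebraic.of_finite N N'
  have hcl : IsAlgClosure N (AlgebraicClosure N') :=
    IsAlgClosure.ofAlgebraic N N' (AlgebraicClosure N')
  obtain ⟨j⟩ : Nonempty (AlgebraicClosure N ≃ₐ[N] AlgebraicClosure N') :=
    ⟨IsAlgClosure.equiv N (AlgebraicClosure N) (AlgebraicClosure N')⟩
  have key : ∀ n : ℕ, ∀ y : shaCoc W ⧸ (cob W).addSubgroupOf (shaCoc W),
      ℓ ^ n • y = 0 → y = 0 := by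
    intro n y hy
    obtain ⟨⟨c, hc⟩, rfl⟩ := QuotientAddGroup.mk_surjective y
    rw [← QuotientAddGroup.mk_nsmul, QuotientAddGroup.eq_zero_iff,
      AddSubgroup.mem_addSubgroupOf] at hy
    rw [QuotientAddGroup.eq_zero_iff, AddSubgroup.mem_addSubgroupOf]
    have hy' : ℓ ^ n • c ∈ cob W := hy
    have hcc : c ∈ coc W := hc.1.1
    have h1 : res hC j c ∈ coc W' := res_coc hC j c hcc
    have h2 : ℓ ^ n • res hC j c ∈ cob W' := by
      rw [← res_nsmul]
      exact res_cob hC j _ hy'
    have h3 : ∀ w : HeightOneSpectrum (𝓞 N'),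
        res hC j c ∈ trivOver W' (w.adicCompletion N') := by
      intro w
      obtain ⟨φ, hφ, -⟩ := exists_compMap N w
      have : CharZero ((below N w).adicCompletion N) :=
        charZero_of_injective_algebraMap (algebraMap N ((below N w).adicCompletion N)).injective
      let _ : Algebra ((below N w).adicCompletion N) (w.adicCompletion N') := φ.toAlgebra
      let _ : Algebra N (w.adicCompletion N') :=
        ((algebraMap N' (w.adicCompletion N')).comp (algebraMap N N')).toAlgebra
      have : IsScalarTower N ((below N w).adicCompletion N) (w.adicCompletion N') :=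
        IsScalarTower.of_algebraMap_eq fun x => (hφ x).symm
      have : IsScalarTower N N' (w.adicCompletion N') :=
        IsScalarTower.of_algebraMap_eq fun x => rfl
      have hcv : c ∈ trivOver W ((below N w).adicCompletion N) := by
        have h : c ∈ ⨅ v : HeightOneSpectrum (𝓞 N), trivOver W (v.adicCompletion N) := hc.1.2
        exact AddSubgroup.mem_iInf.1 h (below N w)
      exact res_triv hC j c hcv
    have hsha : res hC j c ∈ shaCoc W' :=
      ⟨⟨h1, AddSubgroup.mem_iInf.2 h3⟩, AddSubgroup.mem_iInf.2 fun v =>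
        triv_inf W' _ (PL.coc_one W' _ h1) v⟩
    have h4 : res hC j c ∈ cob W' := by
      obtain ⟨z, hz⟩ : ∃ z : Sha W', z = QuotientAddGroup.mk (⟨res hC j c, hsha⟩ :
        shaCoc W') := ⟨_, rfl⟩
      have hz0 : ℓ ^ n • z = 0 := by
        rw [hz, ← QuotientAddGroup.mk_nsmul, QuotientAddGroup.eq_zero_iff,
          AddSubgroup.mem_addSubgroupOf]
        exact h2
      have h6 : (⟨z, ⟨n, hz0⟩⟩ : ShaP ℓ W') = 0 := hS.elim _ _
      have h7 : z = 0 := congrArg Subtype.val h6
      rw [hz, QuotientAddGroup.eq_zero_iff, AddSubgroup.mem_addSubgroupOf] at h7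
      exact h7
    obtain ⟨P, hP⟩ := cob_res hC j c h4
    have h9 : 2 • c ∈ cob W := descend2 x d hx hgen W j c hcc P hP
    have hcop : Nat.Coprime (ℓ ^ n) 2 :=
      Nat.Coprime.pow_left n ((Nat.coprime_primes hℓ.out Nat.prime_two).2 hℓ2)
    obtain ⟨a, b, hab⟩ := Nat.isCoprime_iff_coprime.2 hcop
    have h10 : c = a • (ℓ ^ n • c) + b • (2 • c) := by
      rw [← natCast_zsmul c (ℓ ^ n), ← natCast_zsmul c 2, smul_smul, smul_smul, ← add_smul, hab,
        one_smul]
    change c ∈ cob W
    rw [h10]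
    exact add_mem (AddSubgroup.zsmul_mem _ hy' a) (AddSubgroup.zsmul_mem _ h9 b)
  have h1 : ∀ x : AddCommGroup.primaryComponent (Sha W) ℓ, x = 0 := by
    rintro ⟨x, n, hn⟩
    exact Subtype.ext (key n x hn)
  exact ⟨fun x y => (h1 x).trans (h1 y).symm⟩

theorem card_sha_one {ℓ : ℕ} [Fact ℓ.Prime] {W : WeierstrassCurve N}
    (h : Subsingleton (ShaP ℓ W)) : Nat.card (ShaP ℓ W) = 1 :=
  Nat.card_eq_one_iff_unique.2 ⟨h, ⟨(0 : AddCommGroup.primaryComponent (Sha W) ℓ)⟩⟩

end

end Pool.Agent.Lib.MP_1a91b9_nuX.PX
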